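import Pool.Agent.H669.PS.Pts

set_option autoImplicit false

/-! # Dense windows at the scale of powers of the logarithm: consequences of good integers -/

open Filter Topology

namespace Pool.Agent.H669.PL

open Pool.Agent.H669.PS

/-- every interval `(x, x + (log x) ^ b]`, `x` large, contains an integer outside `dense A μ` -/
def Gaps (A : Set ℕ) (μ b : ℝ) : Prop :=
  ∃ X : ℝ, ∀ x : ℝ, X ≤ x → ∃ n : ℕ, x < n ∧ (n : ℝ) ≤ x + Real.log x ^ b ∧ n ∉ dense A μ

/-- every interval `(x, x + (log x) ^ b]`, `x` large, contains an integer outside `sparse A μ` -/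
def Hits (A : Set ℕ) (μ b : ℝ) : Prop :=
  ∃ X : ℝ, ∀ x : ℝ, X ≤ x → ∃ n : ℕ, x < n ∧ (n : ℝ) ≤ x + Real.log x ^ b ∧ n ∉ sparse A μ

/-- `K = (log (4 x)) ^ b` is a good scale -/
lemma scale (b : ℝ) (hb : 0 < b) (B : ℝ) : ∀ᶠ x : ℝ in atTop,
    Real.log (4 * x) ^ b ≤ 2 ^ b * Real.log x ^ b ∧ Real.log (4 * x) ^ b ≤ x / 4 ∧
    B ≤ Real.log x ∧ 1 ≤ Real.log x ^ b ∧
    ∀ y : ℝ, 1 ≤ y → y ≤ 4 * x → Real.log y ^ b ≤ Real.log (4 * x) ^ b := by
  have h1 := (isLittleO_log_rpow_rpow_atTop b (show (0 : ℝ) < 1 by norm_num)).bound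
    (show (0 : ℝ) < 1 / 16 by norm_num)
  have h2 : ∀ᶠ x : ℝ in atTop, ‖Real.log (4 * x) ^ b‖ ≤ 1 / 16 * ‖(4 * x) ^ (1 : ℝ)‖ :=
    (tendsto_id.const_mul_atTop (show (0 : ℝ) < 4 by norm_num)).eventually h1
  filter_upwards [h2, eventually_ge_atTop (4 : ℝ),
    Real.tendsto_log_atTop.eventually_ge_atTop (max B 1)] with x hx1 hx2 hx3
  have hx0 : 0 < x := by linarith
  have hB : B ≤ Real.log x := (le_max_left _ _).trans hx3
  have hL1 : 1 ≤ Real.log x := (le_max_right _ _).trans hx3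
  have h4 : Real.log (4 * x) = Real.log 4 + Real.log x := Real.log_mul (by norm_num) hx0.ne'
  have h5 : Real.log 4 ≤ Real.log x := Real.log_le_log (by norm_num) hx2
  have h6 : 0 ≤ Real.log 4 := Real.log_nonneg (by norm_num)
  refine ⟨?_, ?_, hB, Real.one_le_rpow hL1 hb.le, ?_⟩
  · rw [← Real.mul_rpow (by norm_num) (by linarith)]
    apply Real.rpow_le_rpow (by linarith) (by linarith) hb.le
  · rw [Real.rpow_one, Real.norm_of_nonneg (Real.rpow_nonneg (Real.log_nonneg (by linarith)) _),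
      Real.norm_of_nonneg (by positivity)] at hx1
    linarith
  · intro y hy1 hy2
    apply Real.rpow_le_rpow (Real.log_nonneg hy1) (Real.log_le_log (by linarith) hy2) hb.le

/-- **Balance at the logarithmic scale.** -/
theorem gaps_bal {A : Set ℕ} {μ b : ℝ} (hμ : 0 < μ) (hb : 0 < b) (h : Gaps A μ b) :
    ∃ C X : ℝ, 0 ≤ C ∧ ∀ x H : ℝ, X ≤ x → 1 ≤ H → H ≤ x →
      |μ * count (dense A μ) x H - count A x H * Real.log x| ≤
        C * (Real.log x ^ b + H / Real.log x) ∧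
      count A x H * (Real.log x - 1) ≤ μ * (H + 2 ^ b * Real.log x ^ b) := by
  classical
  obtain ⟨X0, hX0⟩ := h
  obtain ⟨X, hX⟩ := eventually_atTop.mp ((scale b hb (2 + μ)).and
    (eventually_ge_atTop (max (2 * X0) 16)))
  refine ⟨(2 * μ * (1 + μ) + 2 * μ) * 2 ^ b + μ + 2 * μ * (1 + μ), X, by positivity,
    fun x H hx hH1 hHx => ?_⟩
  obtain ⟨⟨s1, s2, s3, s4, s5⟩, s6⟩ := hX x hx
  have hxX0 : 2 * X0 ≤ x := (le_max_left _ _).trans s6
  have hx16 : 16 ≤ x := (le_max_right _ _).trans s6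
  have hx0 : 0 < x := by linarith
  obtain ⟨K, hK⟩ : ∃ K, K = Real.log (4 * x) ^ b := ⟨_, rfl⟩
  obtain ⟨L, hL⟩ : ∃ L, L = Real.log x := ⟨_, rfl⟩
  obtain ⟨E, hE⟩ : ∃ E, E = Real.log x ^ b := ⟨_, rfl⟩
  rw [← hK] at s1 s2 s5
  rw [← hE] at s1 s4
  rw [← hL] at s3
  rw [← hE, ← hL]
  have hK0 : 0 ≤ K := by
    rw [hK]; exact Real.rpow_nonneg (Real.log_nonneg (by linarith)) _
  have hpt : ∀ y : ℝ, x / 2 ≤ y → y ≤ 4 * x →
      ∃ n : ℕ, y < n ∧ (n : ℝ) ≤ y + K ∧ n ∉ dense A μ := by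
    intro y hy1 hy2
    obtain ⟨n, h1, h2, h3⟩ := hX0 y (by linarith)
    exact ⟨n, h1, h2.trans (by linarith [s5 y (by linarith) hy2]), h3⟩
  obtain ⟨z1, z11, z12, z13⟩ := hpt x (by linarith) (by linarith)
  obtain ⟨w1, w11, w12, w13⟩ := hpt (x + H - K) (by linarith) (by linarith)
  obtain ⟨z2, z21, z22, z23⟩ := hpt (x - K) (by linarith) (by linarith)
  obtain ⟨w2, w21, w22, w23⟩ := hpt (x + H) (by linarith) (by linarith)
  obtain ⟨u, hu⟩ : ∃ u, u = ⌊x⌋₊ := ⟨_, rfl⟩
  obtain ⟨v, hv⟩ : ∃ v, v = ⌊x + H⌋₊ := ⟨_, rfl⟩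
  have hux : (u : ℝ) ≤ x := by rw [hu]; exact Nat.floor_le hx0.le
  have hxu : x < u + 1 := by rw [hu]; exact Nat.lt_floor_add_one x
  have hvx : (v : ℝ) ≤ x + H := by rw [hv]; exact Nat.floor_le (by linarith)
  have hxv : x + H < v + 1 := by rw [hv]; exact Nat.lt_floor_add_one _
  rw [count_eq _ hx0.le (by linarith), count_eq _ hx0.le (by linarith), ← hu, ← hv]
  have hu0 : u ≤ z1 := by
    have : (u : ℝ) ≤ z1 := by linarith
    exact_mod_cast this
  have hw1v : w1 ≤ v := by rw [hv]; exact Nat.le_floor (by linarith)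
  have hz2u : z2 ≤ u := by rw [hu]; exact Nat.le_floor (by linarith)
  have hvw2 : v ≤ w2 := by
    have : (v : ℝ) ≤ w2 := by linarith
    exact_mod_cast this
  have huv : u ≤ v := by rw [hu, hv]; exact Nat.floor_le_floor (by linarith)
  have hz22 : 2 ≤ z2 := by
    have : (2 : ℝ) ≤ z2 := by linarith
    exact_mod_cast this
  have hz12 : 2 ≤ z1 := by
    have : (2 : ℝ) ≤ z1 := by linarith
    exact_mod_cast this
  have hz2pos : (0 : ℝ) < z2 := by
    have h5 : (2 : ℝ) ≤ z2 := by exact_mod_cast hz22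
    linarith
  have hlog2 : Real.log 2 ≤ 1 := by
    have := Real.log_two_lt_d9; linarith
  have hlz : L - 1 ≤ Real.log z2 := by
    have : Real.log (x / 2) ≤ Real.log z2 := Real.log_le_log (by positivity) (by linarith)
    rw [Real.log_div hx0.ne' (by norm_num), ← hL] at this
    linarith
  obtain ⟨D, hD⟩ : ∃ D : ℝ, D = nc (dense A μ) u v := ⟨_, rfl⟩
  obtain ⟨C, hC⟩ : ∃ C : ℝ, C = nc A u v := ⟨_, rfl⟩
  rw [← hD, ← hC]
  have hC0 : 0 ≤ C := by rw [hC]; positivity
  have hL0 : 0 < L := by linarith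
  -- the bound for `C`
  have hCb : C * (L - 1) ≤ μ * (H + K) := by
    have h5 := not_mem_dense hμ hz22 z23 v (hz2u.trans huv)
    have h6 : C ≤ nc A z2 v := by rw [hC]; exact_mod_cast nc_mono hz2u le_rfl
    calc C * (L - 1) ≤ nc A z2 v * Real.log z2 :=
          mul_le_mul h6 hlz (by linarith) (Nat.cast_nonneg _)
      _ ≤ μ * ((v : ℝ) - z2) := h5
      _ ≤ μ * (H + K) := mul_le_mul_of_nonneg_left (by linarith) hμ.le
  have hCL : C * L ≤ 2 * μ * (H + K) := by
    have h7 : 0 ≤ C * (L - 2) := mul_nonneg hC0 (by linarith)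
    linarith
  have hCW : C ≤ 2 * μ * (H / L) + 2 * μ * K := by
    have h7 : C ≤ 2 * μ * (H + K) / L := by rw [le_div_iff₀ hL0]; exact hCL
    have h8 : 2 * μ * (H + K) / L = 2 * μ * (H / L) + 2 * μ * (K / L) := by ring
    have h9 : K / L ≤ K := div_le_self hK0 (by linarith)
    have h10 : 2 * μ * (K / L) ≤ 2 * μ * K := mul_le_mul_of_nonneg_left h9 (by positivity)
    linarith
  refine ⟨?_, hCb.trans (mul_le_mul_of_nonneg_left (by linarith) hμ.le)⟩
  -- upper bound for `C L`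
  have up : C * L - μ * D ≤ (1 + μ) * C + μ * (2 * K + 1) := by
    have b2 := balance_upper hμ hz22 (by omega : z2 ≤ w2) z23 w23
    have c4 : (nc (dense A μ) z2 w2 : ℝ) ≤ D + 2 * K + 1 := by
      have h5 : (nc (dense A μ) z2 w2 : ℝ) =
          nc (dense A μ) z2 u + nc (dense A μ) u v + nc (dense A μ) v w2 := by
        rw [← nc_add (A := dense A μ) hz2u (huv.trans hvw2), ← nc_add (A := dense A μ) huv hvw2]
        push_cast; ring
      have h6 := nc_le_real (dense A μ) hz2u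
      have h7 := nc_le_real (dense A μ) hvw2
      rw [← hD] at h5
      linarith
    have c3 : C ≤ nc A z2 w2 := by rw [hC]; exact_mod_cast nc_mono hz2u hvw2
    have h6 : C * (L - 1 - μ) ≤ nc A z2 w2 * (Real.log z2 - μ) :=
      mul_le_mul c3 (by linarith) (by linarith) (Nat.cast_nonneg _)
    have h7 : μ * nc (dense A μ) z2 w2 ≤ μ * (D + 2 * K + 1) :=
      mul_le_mul_of_nonneg_left c4 hμ.le
    linarith
  have lo : μ * D - C * L ≤ C + μ * (2 * K + 1) := by
    rcases Nat.lt_or_ge w1 z1 with hw | hz1w1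
    · have h5 := nc_le_real (dense A μ) huv
      rw [← hD] at h5
      have h6 : (w1 : ℝ) ≤ z1 := by exact_mod_cast hw.le
      have h7 : D ≤ 2 * K + 1 := by linarith
      have h8 := mul_le_mul_of_nonneg_left h7 hμ.le
      have h9 : 0 ≤ C * L := by positivity
      linarith
    · have b1 := balance_lower hμ hz12 hz1w1 z13 w13
      have hw1pos : (0 : ℝ) < w1 := by
        have : (z1 : ℝ) ≤ w1 := by exact_mod_cast hz1w1
        have h5 : (2 : ℝ) ≤ z1 := by exact_mod_cast hz12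
        linarith
      have hlw : Real.log w1 ≤ L + 1 := by
        have : Real.log w1 ≤ Real.log (2 * x) := Real.log_le_log hw1pos (by linarith)
        rw [Real.log_mul (by norm_num) hx0.ne', ← hL] at this
        linarith
      have hlw0 : 0 ≤ Real.log w1 := by
        apply Real.log_nonneg
        have : (2 : ℝ) ≤ z1 := by exact_mod_cast hz12
        have : (z1 : ℝ) ≤ w1 := by exact_mod_cast hz1w1
        linarith
      have c1 : D ≤ nc (dense A μ) z1 w1 + 2 * K + 1 := by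
        have h5 : (nc (dense A μ) u v : ℝ) =
            nc (dense A μ) u z1 + nc (dense A μ) z1 w1 + nc (dense A μ) w1 v := by
          rw [← nc_add (A := dense A μ) hu0 (hz1w1.trans hw1v),
            ← nc_add (A := dense A μ) hz1w1 hw1v]
          push_cast; ring
        have h6 := nc_le_real (dense A μ) hu0
        have h7 := nc_le_real (dense A μ) hw1v
        rw [← hD] at h5
        linarith
      have c2 : (nc A z1 w1 : ℝ) ≤ C := by rw [hC]; exact_mod_cast nc_mono hu0 hw1v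
      have h5 : μ * D ≤ μ * nc (dense A μ) z1 w1 + μ * (2 * K + 1) := by
        rw [← mul_add]; exact mul_le_mul_of_nonneg_left (by linarith) hμ.le
      have h6 : (nc A z1 w1 : ℝ) * Real.log w1 ≤ C * (L + 1) := mul_le_mul c2 hlw hlw0 hC0
      linarith
  have hμC : 0 ≤ μ * C := by positivity
  have h11 : (1 + μ) * C ≤ (1 + μ) * (2 * μ * (H / L) + 2 * μ * K) :=
    mul_le_mul_of_nonneg_left hCW (by linarith)
  have hHL : 0 ≤ H / L := div_nonneg (by linarith) hL0.le
  have hfin : (1 + μ) * (2 * μ * (H / L) + 2 * μ * K) + μ * (2 * K + 1) ≤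
      ((2 * μ * (1 + μ) + 2 * μ) * 2 ^ b + μ + 2 * μ * (1 + μ)) * (E + H / L) := by
    have g1 : (2 * μ * (1 + μ) + 2 * μ) * K ≤ (2 * μ * (1 + μ) + 2 * μ) * (2 ^ b * E) :=
      mul_le_mul_of_nonneg_left s1 (by positivity)
    have g2 : μ * 1 ≤ μ * E := mul_le_mul_of_nonneg_left s4 hμ.le
    have g3 : 0 ≤ 2 * μ * (1 + μ) * E := by positivity
    have g4 : 0 ≤ ((2 * μ * (1 + μ) + 2 * μ) * 2 ^ b + μ) * (H / L) := by positivity
    linarith
  rw [abs_le]
  constructor
  · linarith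
  · linarith

end Pool.Agent.H669.PL
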