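import Pool.Agent.H669.PL.A

set_option autoImplicit false

/-! # From upper bounds in the intervals of length `(log x) ^ a` to good integers -/

open Filter Topology

namespace Pool.Agent.H669.PL

open Pool.Agent.H669.PS

lemma count_floor (A : Set ℕ) (n : ℕ) {t : ℝ} (ht : 0 ≤ t) : count A n t = nc A n (n + ⌊t⌋₊) := by
  rw [count_eq A (Nat.cast_nonneg _) ht, Nat.floor_natCast, add_comm (n : ℝ) t,
    Nat.floor_add_natCast ht, add_comm]

/-- upper bound for all windows from one for the windows of length `(log n) ^ a` -/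
lemma upCover {A : Set ℕ} {c δ a X : ℝ} (hc : 0 ≤ c) (hδ : 0 < δ) (ha : 0 < a)
    (hX : ∀ y : ℝ, X ≤ y → count A y (Real.log y ^ a) * Real.log y ≤ c * Real.log y ^ a) :
    ∃ X' : ℕ, ∀ h n : ℕ, X' ≤ n →
      nc A n (n + h) * Real.log n ≤ (c + δ) * (h + Real.log ((n : ℝ) + h) ^ a) := by
  have hev : ∀ᶠ n : ℕ in atTop, max (max X 3) 3 ≤ (n : ℝ) ∧ c / δ + 1 ≤ Real.log n ^ a := by
    refine (tendsto_natCast_atTop_atTop.eventually_ge_atTop _).and ?_
    exact ((tendsto_rpow_atTop ha).comp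
      (Real.tendsto_log_atTop.comp tendsto_natCast_atTop_atTop)).eventually_ge_atTop _
  obtain ⟨X', hX'⟩ := eventually_atTop.mp hev
  refine ⟨X', fun h => ?_⟩
  induction h using Nat.strong_induction_on with
  | _ h ih =>
    intro n hn
    obtain ⟨h1, h2⟩ := hX' n hn
    have hnX : X ≤ n := ((le_max_left _ _).trans (le_max_left _ _)).trans h1
    have hn3 : (3 : ℝ) ≤ n := (le_max_right _ _).trans h1
    have hn0 : (0 : ℝ) < n := by linarith
    have hl : 0 < Real.log n := Real.log_pos (by linarith)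
    obtain ⟨E, hE⟩ : ∃ E, E = Real.log n ^ a := ⟨_, rfl⟩
    have h3 := hX n hnX
    rw [← hE] at h2 h3
    have hE0 : 0 ≤ E := by
      have : 0 ≤ c / δ := by positivity
      linarith
    rw [count_floor A n hE0] at h3
    obtain ⟨k, hk⟩ : ∃ k, k = ⌊E⌋₊ := ⟨_, rfl⟩
    rw [← hk] at h3
    have hkE : (k : ℝ) ≤ E := by rw [hk]; exact Nat.floor_le hE0
    have hEk : E < k + 1 := by rw [hk]; exact Nat.lt_floor_add_one E
    have hck : c ≤ δ * k := by
      have h4 : c / δ ≤ k := by linarith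
      rwa [div_le_iff₀ hδ, mul_comm] at h4
    have hk1 : 0 < k := by
      rw [hk, Nat.floor_pos]
      have : 0 ≤ c / δ := by positivity
      linarith
    by_cases hhk : h ≤ k
    · have h5 : (nc A n (n + h) : ℝ) ≤ nc A n (n + k) := by
        exact_mod_cast nc_mono le_rfl (by omega)
      have h6 : E ≤ Real.log ((n : ℝ) + h) ^ a := by
        rw [hE]
        apply Real.rpow_le_rpow hl.le (Real.log_le_log hn0 _) ha.le
        have : (0 : ℝ) ≤ h := Nat.cast_nonneg _
        linarith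
      have h7 := mul_le_mul_of_nonneg_right h5 hl.le
      have h8 : (0 : ℝ) ≤ h := Nat.cast_nonneg _
      have h9 : c * E ≤ (c + δ) * (h + Real.log ((n : ℝ) + h) ^ a) := by
        apply mul_le_mul (by linarith) (by linarith) hE0 (by linarith)
      linarith
    · push Not at hhk
      have h4 := ih (h - k) (by omega) (n + k) (by omega)
      have h5 : n + k + (h - k) = n + h := by omega
      have h6 : ((h - k : ℕ) : ℝ) = (h : ℝ) - k := Nat.cast_sub hhk.le
      have h7 : ((n + k : ℕ) : ℝ) + ((h - k : ℕ) : ℝ) = (n : ℝ) + h := by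
        rw [h6]; push_cast; ring
      rw [h5, h7, h6] at h4
      have h8 : (nc A n (n + h) : ℝ) = nc A n (n + k) + nc A (n + k) (n + h) := by
        exact_mod_cast (nc_add (A := A) (a := n) (b := n + k) (c := n + h) (by omega)
          (by omega)).symm
      have h9 : (nc A (n + k) (n + h) : ℝ) * Real.log n ≤
          nc A (n + k) (n + h) * Real.log ((n + k : ℕ) : ℝ) := by
        apply mul_le_mul_of_nonneg_left _ (Nat.cast_nonneg _)
        apply Real.log_le_log hn0
        push_cast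
        have : (0 : ℝ) ≤ k := Nat.cast_nonneg _
        linarith
      have h10 : c * E ≤ (c + δ) * k := by
        have : c * E ≤ c * (k + 1) := mul_le_mul_of_nonneg_left hEk.le hc
        linarith
      rw [h8, add_mul]
      linarith

/-- logarithms are small -/
lemma logSmall {a b η : ℝ} (ha : 0 < a) (hab : a < b) (hη : 0 < η) :
    ∃ X : ℝ, ∀ n h : ℝ, X ≤ n → Real.log n ^ b ≤ h → Real.log (n + h) ^ a ≤ η * h := by
  have h1 := (isLittleO_log_rpow_rpow_atTop a (show (0 : ℝ) < 1 by norm_num)).bound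
    (show (0 : ℝ) < η / 2 by positivity)
  have h2 : ∀ᶠ x : ℝ in atTop, ‖Real.log (2 * x) ^ a‖ ≤ η / 2 * ‖(2 * x) ^ (1 : ℝ)‖ :=
    (tendsto_id.const_mul_atTop (show (0 : ℝ) < 2 by norm_num)).eventually h1
  have h3 : ∀ᶠ x : ℝ in atTop, 2 ^ a / η ≤ Real.log x ^ (b - a) :=
    ((tendsto_rpow_atTop (show 0 < b - a by linarith)).comp
      Real.tendsto_log_atTop).eventually_ge_atTop _
  obtain ⟨X1, hX1⟩ := eventually_atTop.mp h2
  obtain ⟨X2, hX2⟩ := eventually_atTop.mp h3
  refine ⟨max (max X1 X2) 3, fun n h hn hh => ?_⟩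
  have hn1 : X1 ≤ n := ((le_max_left _ _).trans (le_max_left _ _)).trans hn
  have hn2 : X2 ≤ n := ((le_max_right _ _).trans (le_max_left _ _)).trans hn
  have hn3 : 3 ≤ n := (le_max_right _ _).trans hn
  have hn0 : 0 < n := by linarith
  have hl : 1 ≤ Real.log n := by
    rw [Real.le_log_iff_exp_le hn0]
    have := Real.exp_one_lt_d9
    linarith
  have hl0 : 0 < Real.log n := by linarith
  have hb0 : 0 < b := by linarith
  have hh1 : 1 ≤ h := (Real.one_le_rpow hl hb0.le).trans hh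
  rcases le_total h n with hc | hc
  · have h4 : Real.log (n + h) ≤ 2 * Real.log n := by
      have h5 : Real.log (n + h) ≤ Real.log (n * n) := by
        apply Real.log_le_log (by linarith)
        nlinarith
      rw [Real.log_mul hn0.ne' hn0.ne'] at h5
      linarith
    have h5 : Real.log (n + h) ^ a ≤ 2 ^ a * Real.log n ^ a := by
      rw [← Real.mul_rpow (by norm_num) hl0.le]
      exact Real.rpow_le_rpow (Real.log_nonneg (by linarith)) h4 ha.le
    have h6 := hX2 n hn2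
    rw [div_le_iff₀ hη] at h6
    have h7 : Real.log n ^ b = Real.log n ^ (b - a) * Real.log n ^ a := by
      rw [← Real.rpow_add hl0]; congr 1; ring
    have h8 : 0 < Real.log n ^ a := Real.rpow_pos_of_pos hl0 _
    have h9 : 2 ^ a * Real.log n ^ a ≤ Real.log n ^ (b - a) * η * Real.log n ^ a :=
      mul_le_mul_of_nonneg_right h6 h8.le
    have h10 : η * Real.log n ^ b ≤ η * h := mul_le_mul_of_nonneg_left hh hη.le
    rw [h7] at h10
    linarith
  · have h4 := hX1 h (by linarith)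
    rw [Real.rpow_one, Real.norm_of_nonneg (Real.rpow_nonneg (Real.log_nonneg (by linarith)) _),
      Real.norm_of_nonneg (by linarith)] at h4
    have h5 : Real.log (n + h) ^ a ≤ Real.log (2 * h) ^ a := by
      apply Real.rpow_le_rpow (Real.log_nonneg (by linarith)) _ ha.le
      exact Real.log_le_log (by linarith) (by linarith)
    linarith

/-- macroscopic upper bound -/
lemma upMacro {A : Set ℕ} {c μ a b X : ℝ} (hc : 0 ≤ c) (hμ : c < μ) (ha : 0 < a) (hab : a < b)
    (hX : ∀ y : ℝ, X ≤ y → count A y (Real.log y ^ a) * Real.log y ≤ c * Real.log y ^ a) :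
    ∃ X1 : ℕ, ∀ n m : ℕ, X1 ≤ n → (n : ℝ) + Real.log n ^ b ≤ m →
      nc A n m * Real.log n ≤ μ * ((m : ℝ) - n) := by
  obtain ⟨δ, hδ⟩ : ∃ δ, δ = (μ - c) / 2 := ⟨_, rfl⟩
  have hδ0 : 0 < δ := by rw [hδ]; linarith
  obtain ⟨X1, hX1⟩ := upCover hc hδ0 ha hX
  obtain ⟨X2, hX2⟩ := logSmall ha hab (show 0 < δ / (c + δ) by positivity)
  obtain ⟨X3, hX3⟩ := eventually_atTop.mp
    ((tendsto_natCast_atTop_atTop (R := ℝ)).eventually_ge_atTop (max X2 3))
  refine ⟨max X1 X3, fun n m hn hnm => ?_⟩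
  have h1 := hX3 n ((le_max_right _ _).trans hn)
  have hn2 : X2 ≤ n := (le_max_left _ _).trans h1
  have hn3 : (3 : ℝ) ≤ n := (le_max_right _ _).trans h1
  have hp : 0 ≤ Real.log n ^ b := Real.rpow_nonneg (Real.log_nonneg (by linarith)) _
  have hnm' : n ≤ m := by
    have : (n : ℝ) ≤ m := by linarith
    exact_mod_cast this
  obtain ⟨h, rfl⟩ := Nat.exists_eq_add_of_le hnm'
  have h2 := hX1 h n ((le_max_left _ _).trans hn)
  push_cast at hnm ⊢
  have h3 := hX2 n h hn2 (by linarith)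
  have h4 : (c + δ) * Real.log ((n : ℝ) + h) ^ a ≤ δ * h := by
    have h5 := mul_le_mul_of_nonneg_left h3 (by linarith : 0 ≤ c + δ)
    have h6 : (c + δ) * (δ / (c + δ) * h) = δ * h := by
      field_simp
    linarith
  have h5 : (n : ℝ) + h - n = h := by ring
  rw [h5]
  have h6 : μ * h = (c + δ) * h + δ * h := by rw [hδ]; ring
  linarith

set_option maxHeartbeats 2000000 in
/-- good integers from a macroscopic upper bound -/
lemma gaps_of_macro {A : Set ℕ} {μ μ' b : ℝ} (hμ : 0 < μ) (hμ' : μ < μ') (hb : 0 < b) {X1 : ℕ}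
    (hX1 : ∀ n m : ℕ, X1 ≤ n → (n : ℝ) + Real.log n ^ b ≤ m →
      nc A n m * Real.log n ≤ μ * ((m : ℝ) - n)) : Gaps A μ' (b + 1) := by
  classical
  obtain ⟨g, hg⟩ : ∃ g, g = μ' - μ := ⟨_, rfl⟩
  have hg0 : 0 < g := by rw [hg]; linarith
  have hμ'0 : 0 < μ' := by linarith
  obtain ⟨X, hX⟩ := eventually_atTop.mp ((scale b hb (2 * μ / g + 2 * μ' / g * (2 ^ b + 3) + 8)).and
    ((scale (b + 1) (by linarith) 1).and
    (eventually_ge_atTop (max ((X1 : ℝ) + 1) 16))))
  refine ⟨X, fun x hx => ?_⟩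
  obtain ⟨⟨s1, s2, s3, s4, s5⟩, ⟨t1, t2, t3, t4, t5⟩, s6⟩ := hX x hx
  have hxX1 : (X1 : ℝ) + 1 ≤ x := (le_max_left _ _).trans s6
  have hx16 : 16 ≤ x := (le_max_right _ _).trans s6
  have hx0 : 0 < x := by linarith
  by_contra hcon
  push Not at hcon
  obtain ⟨K, hK⟩ : ∃ K, K = Real.log (4 * x) ^ b := ⟨_, rfl⟩
  obtain ⟨L, hL⟩ : ∃ L, L = Real.log x := ⟨_, rfl⟩
  obtain ⟨E, hE⟩ : ∃ E, E = Real.log x ^ b := ⟨_, rfl⟩
  obtain ⟨H, hH⟩ : ∃ H, H = Real.log x ^ (b + 1) := ⟨_, rfl⟩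
  rw [← hH] at hcon
  have hxx : x ≤ 4 * x := by linarith
  have hHx : H ≤ x / 4 := by rw [hH]; exact (t5 x (by linarith) hxx).trans t2
  rw [← hK] at s1 s2 s5
  rw [← hE] at s1 s4
  rw [← hL] at s3
  have hq : 0 ≤ 2 * μ / g + 2 * μ' / g * (2 ^ b + 3) := by positivity
  have hL8 : 8 ≤ L := by linarith
  have hL0 : 0 < L := by linarith
  have hHE : H = E * L := by
    rw [hH, hE, hL, Real.rpow_add (by rw [← hL]; exact hL0), Real.rpow_one]
  have hK0 : 0 ≤ K := by
    rw [hK]; exact Real.rpow_nonneg (Real.log_nonneg (by linarith)) _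
  obtain ⟨u, hu⟩ : ∃ u, u = ⌊x⌋₊ := ⟨_, rfl⟩
  obtain ⟨v, hv⟩ : ∃ v, v = ⌊x + H⌋₊ := ⟨_, rfl⟩
  have hH0 : 0 ≤ H := by rw [hHE]; nlinarith
  have hux : (u : ℝ) ≤ x := by rw [hu]; exact Nat.floor_le hx0.le
  have hxu : x < u + 1 := by rw [hu]; exact Nat.lt_floor_add_one x
  have hvx : (v : ℝ) ≤ x + H := by rw [hv]; exact Nat.floor_le (by linarith)
  have hxv : x + H < v + 1 := by rw [hv]; exact Nat.lt_floor_add_one _
  have huv : u ≤ v := by rw [hu, hv]; exact Nat.floor_le_floor (by linarith)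
  have hu2 : 2 ≤ u := by rw [hu]; apply Nat.le_floor; push_cast; linarith
  have huX1 : X1 ≤ u := by rw [hu]; apply Nat.le_floor; linarith
  have hu0 : (0 : ℝ) < u := by exact_mod_cast (by omega : 0 < u)
  have hall : nc (dense A μ') u v = v - u := by
    unfold nc
    rw [Finset.filter_true_of_mem, Nat.card_Ioc]
    intro n hn
    rw [Finset.mem_Ioc, hu, hv] at hn
    exact hcon n ((Nat.floor_lt hx0.le).mp hn.1) ((Nat.le_floor_iff (by linarith)).mp hn.2)
  have hm : ∀ n m : ℕ, u ≤ n → n ≤ v → (n : ℝ) + K ≤ m →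
      nc A n m * Real.log n ≤ μ * ((m : ℝ) - n) := by
    intro n m hn1 hn2 hn3
    apply hX1 n m (huX1.trans hn1)
    have h6 : (n : ℝ) ≤ v := by exact_mod_cast hn2
    have h7 : (2 : ℝ) ≤ n := by exact_mod_cast hu2.trans hn1
    have h8 := s5 n (by linarith) (by linarith)
    linarith
  have hm' : ∀ n m : ℕ, u ≤ n → n ≤ v → (n : ℝ) + K ≤ m →
      nc A n m * Real.log n ≤ μ' * ((m : ℝ) - n) := by
    intro n m hn1 hn2 hn3
    refine (hm n m hn1 hn2 hn3).trans ?_
    exact mul_le_mul_of_nonneg_right hμ'.le (by linarith)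
  have hlow := macro_lower (by linarith : 0 < μ') hK0 hu2 huv hm'
  rw [hall, Nat.cast_sub huv] at hlow
  obtain ⟨V, hV⟩ : ∃ V : ℝ, V = (v : ℝ) - u := ⟨_, rfl⟩
  obtain ⟨C, hC⟩ : ∃ C : ℝ, C = nc A u v := ⟨_, rfl⟩
  rw [← hV, ← hC] at hlow
  have hC0 : 0 ≤ C := by rw [hC]; positivity
  have hVH : H - 1 ≤ V := by rw [hV]; linarith
  -- `E (2 μ'/g (2 ^ b + 3)) ≤ V`
  have hEL : E * (2 * μ / g + 2 * μ' / g * (2 ^ b + 3) + 8) ≤ H := by
    rw [hHE]; exact mul_le_mul_of_nonneg_left s3 (by linarith)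
  have hE0 : 0 ≤ E := by linarith
  have hVE : 2 * μ' / g * (2 ^ b + 3) * E < V := by
    have h1 : 0 ≤ 2 * μ / g * E := by positivity
    have h2 : E * (2 * μ / g + 2 * μ' / g * (2 ^ b + 3) + 8) =
        2 * μ / g * E + 2 * μ' / g * (2 ^ b + 3) * E + 8 * E := by ring
    rw [h2] at hEL
    linarith
  have hKV : K ≤ V := by
    have h3 : K ≤ 2 ^ b * E := s1
    have h4 : 1 ≤ 2 * μ' / g := by
      rw [le_div_iff₀ hg0]; linarith
    have h5 : 1 * ((2 ^ b + 3) * E) ≤ 2 * μ' / g * ((2 ^ b + 3) * E) :=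
      mul_le_mul_of_nonneg_right h4 (by positivity)
    linarith
  have hup := hm u v le_rfl huv (by linarith)
  rw [← hC, ← hV] at hup
  have hlog2 : Real.log 2 ≤ 1 := by
    have := Real.log_two_lt_d9; linarith
  have hlu : L - 1 ≤ Real.log u := by
    have : Real.log (x / 2) ≤ Real.log u := Real.log_le_log (by positivity) (by linarith)
    rw [Real.log_div hx0.ne' (by norm_num), ← hL] at this
    linarith
  have hv0 : (0 : ℝ) < v := by
    have : (u : ℝ) ≤ v := by exact_mod_cast huv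
    linarith
  have hlv : Real.log v ≤ Real.log u + 1 := by
    have : Real.log v ≤ Real.log (2 * u) := Real.log_le_log hv0 (by linarith)
    rw [Real.log_mul (by norm_num) hu0.ne'] at this
    linarith
  have h1 : C * Real.log v ≤ μ * V + C := by
    have := mul_le_mul_of_nonneg_left hlv hC0
    linarith
  have h2 : C * (g / 2) ≤ g / 2 * V * (g / 2) := by
    -- `C (2 μ / g) ≤ C log u ≤ μ V`
    have h3 : 2 * μ / g ≤ Real.log u := by
      have : 0 ≤ 2 * μ' / g * (2 ^ b + 3) := by positivity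
      linarith
    have h4 : C * (2 * μ / g) ≤ μ * V := (mul_le_mul_of_nonneg_left h3 hC0).trans hup
    have h5 : C * (2 * μ / g) = 2 * μ * C / g := by ring
    rw [h5, div_le_iff₀ hg0] at h4
    have h6 : μ * (2 * C) ≤ μ * (V * g) := by linarith
    have h7 : 2 * C ≤ V * g := le_of_mul_le_mul_left h6 hμ
    have h8 : 2 * C * (g / 4) ≤ V * g * (g / 4) := mul_le_mul_of_nonneg_right h7 (by positivity)
    linarith
  have h3 : C ≤ g / 2 * V := le_of_mul_le_mul_right h2 (by positivity)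
  have h4 : g / 2 * V ≤ μ' * (K + 2) := by
    have : μ' * V = μ * V + g * V := by rw [hg]; ring
    linarith
  have h5 : V ≤ 2 * μ' / g * (K + 2) := by
    have h6 : 2 * μ' / g * (K + 2) = μ' * (K + 2) / (g / 2) := by field_simp
    rw [h6, le_div_iff₀ (by positivity)]
    linarith
  have h6 : 2 * μ' / g * (K + 2) ≤ 2 * μ' / g * ((2 ^ b + 3) * E) := by
    apply mul_le_mul_of_nonneg_left _ (by
      have : 0 < μ' := by linarith
      positivity)
    linarith
  linarith

end Pool.Agent.H669.PL
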