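import Pool.Agent.H669.PL.B

set_option autoImplicit false

/-! # The limits over the exponents -/

open Filter Topology

namespace Pool.Agent.H669.PL

open Pool.Agent.H669.PS

/-- the normalized number of elements of `A` in `(x, x + (log x) ^ a]` -/
noncomputable def rate (A : Set ℕ) (a x : ℝ) : ℝ :=
  count A x (Real.log x ^ a) * Real.log x / Real.log x ^ a

/-- `lim U_a ≤ c` -/
def UpLe (A : Set ℕ) (c : ℝ) : Prop :=
  ∀ δ : ℝ, 0 < δ → ∃ a₀ : ℝ, ∀ a : ℝ, a₀ ≤ a → ∃ X : ℝ, ∀ x : ℝ, X ≤ x → rate A a x ≤ c + δ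

/-- `c ≤ lim L_a` -/
def LoGe (A : Set ℕ) (c : ℝ) : Prop :=
  ∀ δ : ℝ, 0 < δ → ∃ a₀ : ℝ, ∀ a : ℝ, a₀ ≤ a → ∃ X : ℝ, ∀ x : ℝ, X ≤ x → c - δ ≤ rate A a x

lemma count_nonneg (A : Set ℕ) (x H : ℝ) : 0 ≤ count A x H := by unfold count; positivity

theorem up_iff {A : Set ℕ} {c : ℝ} (hc : 0 ≤ c) :
    UpLe A c ↔ ∀ μ : ℝ, c < μ → ∃ b : ℝ, 0 < b ∧ Gaps A μ b := by
  constructor
  · intro h μ hμ
    obtain ⟨δ, hδ⟩ : ∃ δ, δ = (μ - c) / 4 := ⟨_, rfl⟩
    have hδ0 : 0 < δ := by rw [hδ]; linarith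
    obtain ⟨a₀, h1⟩ := h δ hδ0
    obtain ⟨a, ha⟩ : ∃ a, a = max a₀ 1 := ⟨_, rfl⟩
    have ha0 : 0 < a := by rw [ha]; exact lt_of_lt_of_le one_pos (le_max_right _ _)
    obtain ⟨X, hX⟩ := h1 a (by rw [ha]; exact le_max_left _ _)
    obtain ⟨X1, hX1⟩ := upMacro (A := A) (c := c + δ) (μ := c + 2 * δ) (a := a) (b := a + 1)
      (X := max X 3) (by linarith) (by linarith) ha0 (by linarith) (by
        intro y hy
        have hy3 : 3 ≤ y := (le_max_right _ _).trans hy
        have hl : 0 < Real.log y := Real.log_pos (by linarith)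
        have h2 := hX y ((le_max_left _ _).trans hy)
        unfold rate at h2
        rwa [div_le_iff₀ (Real.rpow_pos_of_pos hl _)] at h2)
    exact ⟨a + 1 + 1, by linarith, gaps_of_macro (by linarith) (by linarith) (by linarith) hX1⟩
  · intro h δ hδ
    obtain ⟨μ, hμ⟩ : ∃ μ, μ = c + δ / 2 := ⟨_, rfl⟩
    have hμ0 : 0 < μ := by rw [hμ]; linarith
    obtain ⟨b, hb, h1⟩ := h μ (by rw [hμ]; linarith)
    obtain ⟨C, X, hC, hX⟩ := gaps_bal hμ0 hb h1
    refine ⟨b + 1, fun a ha => ?_⟩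
    obtain ⟨X2, hX2⟩ := eventually_atTop.mp ((scale a (by linarith)
      (2 * μ * (2 ^ b + 1) / δ + 2)).and (eventually_ge_atTop (max X 3)))
    refine ⟨X2, fun x hx => ?_⟩
    obtain ⟨⟨s1, s2, s3, s4, s5⟩, s6⟩ := hX2 x hx
    have hx3 : 3 ≤ x := (le_max_right _ _).trans s6
    have h2 := (hX x (Real.log x ^ a) ((le_max_left _ _).trans s6) s4
      ((s5 x (by linarith) (by linarith)).trans (s2.trans (by linarith)))).2
    unfold rate
    obtain ⟨L, hL⟩ : ∃ L, L = Real.log x := ⟨_, rfl⟩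
    rw [← hL] at s3 s4 h2 ⊢
    have hq : 0 ≤ 2 * μ * (2 ^ b + 1) / δ := by positivity
    have hL0 : 0 < L := by linarith
    obtain ⟨H, hH⟩ : ∃ H, H = L ^ a := ⟨_, rfl⟩
    rw [← hH] at s4 h2 ⊢
    have hH0 : 0 < H := by linarith
    have hbH : L ^ b * L ≤ H := by
      rw [hH]
      calc L ^ b * L = L ^ (b + 1) := by rw [Real.rpow_add hL0, Real.rpow_one]
        _ ≤ L ^ a := Real.rpow_le_rpow_of_exponent_le (by linarith) ha
    rw [div_le_iff₀ hH0]
    obtain ⟨N, hN⟩ : ∃ N, N = count A x H := ⟨_, rfl⟩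
    have hN0 : 0 ≤ N := by rw [hN]; exact count_nonneg _ _ _
    rw [← hN] at h2 ⊢
    -- `N (L - 1) L ≤ μ H (L + 2 ^ b)`
    have h3 : N * L * (L - 1) ≤ μ * H * (L + 2 ^ b) := by
      have h4 : N * (L - 1) * L ≤ μ * (H + 2 ^ b * L ^ b) * L :=
        mul_le_mul_of_nonneg_right h2 hL0.le
      have h5 : μ * (2 ^ b * (L ^ b * L)) ≤ μ * (2 ^ b * H) := by gcongr
      linarith
    have h6 : μ * H * (L + 2 ^ b) ≤ (c + δ) * H * (L - 1) := by
      have h7 : 2 * μ * (2 ^ b + 1) / δ ≤ L - 1 := by linarith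
      rw [div_le_iff₀ hδ] at h7
      have h8 : μ * (L + 2 ^ b) ≤ (c + δ) * (L - 1) := by
        have : (c + δ) * (L - 1) = μ * (L - 1) + δ / 2 * (L - 1) := by rw [hμ]; ring
        rw [this]
        linarith
      have := mul_le_mul_of_nonneg_right h8 hH0.le
      linarith
    exact le_of_mul_le_mul_right (h3.trans h6) (by linarith)

/-- covering from below -/
lemma loCover {A : Set ℕ} {c a X : ℝ} (hc : 0 ≤ c) (ha : 0 < a)
    (hX : ∀ y : ℝ, X ≤ y → c * Real.log y ^ a ≤ count A y (Real.log y ^ a) * Real.log y)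
    (M : ℕ) :
    ∀ h n : ℕ, max X 3 ≤ n → n + h ≤ M →
      c * ((h : ℝ) - Real.log M ^ a - 1) ≤ nc A n (n + h) * Real.log M := by
  intro h
  induction h using Nat.strong_induction_on with
  | _ h ih =>
    intro n hn hM
    have hnX : X ≤ n := (le_max_left _ _).trans hn
    have hn3 : (3 : ℝ) ≤ n := (le_max_right _ _).trans hn
    have hn0 : (0 : ℝ) < n := by linarith
    have hnM : (n : ℝ) ≤ M := by exact_mod_cast (by omega : n ≤ M)
    have hl : 1 ≤ Real.log n := by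
      rw [Real.le_log_iff_exp_le hn0]
      have := Real.exp_one_lt_d9
      linarith
    have hlM : Real.log n ≤ Real.log M := Real.log_le_log hn0 hnM
    obtain ⟨E, hE⟩ : ∃ E, E = Real.log n ^ a := ⟨_, rfl⟩
    have h3 := hX n hnX
    rw [← hE] at h3
    have hE1 : 1 ≤ E := by rw [hE]; exact Real.one_le_rpow hl ha.le
    have hEM : E ≤ Real.log M ^ a := by
      rw [hE]; exact Real.rpow_le_rpow (by linarith) hlM ha.le
    rw [count_floor A n (by linarith)] at h3
    obtain ⟨k, hk⟩ : ∃ k, k = ⌊E⌋₊ := ⟨_, rfl⟩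
    rw [← hk] at h3
    have hkE : (k : ℝ) ≤ E := by rw [hk]; exact Nat.floor_le (by linarith)
    have hk1 : 0 < k := by rw [hk, Nat.floor_pos]; exact hE1
    by_cases hhk : h < k
    · have h4 : (h : ℝ) < k := by exact_mod_cast hhk
      have h5 : c * ((h : ℝ) - Real.log M ^ a - 1) ≤ 0 :=
        mul_nonpos_of_nonneg_of_nonpos hc (by linarith)
      have h6 : 0 ≤ (nc A n (n + h) : ℝ) * Real.log M :=
        mul_nonneg (Nat.cast_nonneg _) (by linarith)
      linarith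
    · push Not at hhk
      have h4 := ih (h - k) (by omega) (n + k) (by push_cast; linarith [hn,
        (Nat.cast_nonneg k : (0 : ℝ) ≤ k)]) (by omega)
      have h5 : n + k + (h - k) = n + h := by omega
      have h6 : ((h - k : ℕ) : ℝ) = (h : ℝ) - k := Nat.cast_sub hhk
      rw [h5, h6] at h4
      have h8 : (nc A n (n + h) : ℝ) = nc A n (n + k) + nc A (n + k) (n + h) := by
        exact_mod_cast (nc_add (A := A) (a := n) (b := n + k) (c := n + h) (by omega)
          (by omega)).symm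
      have h9 : c * k ≤ nc A n (n + k) * Real.log M := by
        calc c * k ≤ c * E := mul_le_mul_of_nonneg_left hkE hc
          _ ≤ nc A n (n + k) * Real.log n := h3
          _ ≤ nc A n (n + k) * Real.log M :=
            mul_le_mul_of_nonneg_left hlM (Nat.cast_nonneg _)
      rw [h8, add_mul]
      linarith

/-- greedy covering by sparse windows -/
lemma greedy {A : Set ℕ} {μ L Y : ℝ} (hμ : 0 ≤ μ) {u v : ℕ}
    (h : ∀ n : ℕ, u < n → n ≤ v → ∃ w : ℝ, 0 < w ∧ w < Y ∧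
      nc A (n - 1) (n + ⌊w⌋₊) * L ≤ μ * w) :
    ∀ k n : ℕ, v - n = k → u < n → n ≤ v →
      ∃ m : ℕ, v < m ∧ (m : ℝ) ≤ v + Y + 2 ∧ nc A (n - 1) (m - 1) * L ≤ μ * ((m : ℝ) - n) := by
  intro k
  induction k using Nat.strong_induction_on with
  | _ k ih =>
    intro n hk hn1 hn2
    have hnv : (n : ℝ) ≤ v := by exact_mod_cast hn2
    obtain ⟨w, hw0, hwY, hw2⟩ := h n hn1 hn2
    obtain ⟨j, hj⟩ : ∃ j, j = ⌊w⌋₊ := ⟨_, rfl⟩
    have hjw : (j : ℝ) ≤ w := by rw [hj]; exact Nat.floor_le hw0.le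
    have hwj : w < j + 1 := by rw [hj]; exact Nat.lt_floor_add_one w
    rw [← hj] at hw2
    have hfirst : (nc A (n - 1) (n + j) : ℝ) * L ≤ μ * ((j : ℝ) + 1) :=
      hw2.trans (mul_le_mul_of_nonneg_left hwj.le hμ)
    by_cases hend : v < n + j + 1
    · refine ⟨n + j + 1, hend, ?_, ?_⟩
      · push_cast; linarith
      · rw [Nat.add_sub_cancel]
        push_cast
        have : (n : ℝ) + j + 1 - n = j + 1 := by ring
        rw [this]
        exact hfirst
    · push Not at hend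
      obtain ⟨m, hm1, hm2, hm3⟩ := ih (v - (n + j + 1)) (by omega) (n + j + 1) rfl (by omega) hend
      refine ⟨m, hm1, hm2, ?_⟩
      rw [Nat.add_sub_cancel] at hm3
      have h5 : (nc A (n - 1) (m - 1) : ℝ) = nc A (n - 1) (n + j) + nc A (n + j) (m - 1) := by
        exact_mod_cast (nc_add (A := A) (a := n - 1) (b := n + j) (c := m - 1) (by omega)
          (by omega)).symm
      rw [h5, add_mul]
      push_cast at hm3
      linarith

set_option maxHeartbeats 2000000 in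
/-- good integers from lower bounds -/
lemma hits_of_lo {A : Set ℕ} {c μ a X : ℝ} (hμ : 0 < μ) (hc : μ < c) (ha : 0 < a)
    (hX : ∀ y : ℝ, X ≤ y → c * Real.log y ^ a ≤ count A y (Real.log y ^ a) * Real.log y)
    (hX' : ∀ y : ℝ, X ≤ y →
      c * Real.log y ^ (a + 1) ≤ count A y (Real.log y ^ (a + 1)) * Real.log y) :
    Hits A μ (a + 1) := by
  classical
  obtain ⟨g, hg⟩ : ∃ g, g = c - μ := ⟨_, rfl⟩
  have hg0 : 0 < g := by rw [hg]; linarith
  have hc0 : 0 < c := by linarith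
  obtain ⟨X2, hX2⟩ := eventually_atTop.mp ((scale a ha
    (2 * μ / g + 6 + μ / g * (2 * c / g * (2 ^ a + 2) + 5))).and
    ((scale (a + 1) (by linarith) 1).and (eventually_ge_atTop (max X 16))))
  refine ⟨X2, fun x hx => ?_⟩
  obtain ⟨⟨s1, s2, s3, s4, s5⟩, ⟨t1, t2, t3, t4, t5⟩, s6⟩ := hX2 x hx
  have hxX : X ≤ x := (le_max_left _ _).trans s6
  have hx16 : 16 ≤ x := (le_max_right _ _).trans s6
  have hx0 : 0 < x := by linarith
  by_contra hcon
  push Not at hcon
  obtain ⟨K, hK⟩ : ∃ K, K = Real.log (4 * x) ^ a := ⟨_, rfl⟩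
  obtain ⟨L, hL⟩ : ∃ L, L = Real.log x := ⟨_, rfl⟩
  obtain ⟨E, hE⟩ : ∃ E, E = Real.log x ^ a := ⟨_, rfl⟩
  obtain ⟨H, hH⟩ : ∃ H, H = Real.log x ^ (a + 1) := ⟨_, rfl⟩
  rw [← hH] at hcon t4
  have hHx : H ≤ x / 4 := by rw [hH]; exact (t5 x (by linarith) (by linarith)).trans t2
  rw [← hK] at s1 s2 s5
  rw [← hE] at s1 s4
  rw [← hL] at s3
  have hq : 0 ≤ μ / g * (2 * c / g * (2 ^ a + 2) + 5) := by positivity
  have hq2 : 0 ≤ 2 * μ / g := by positivity
  have hL0 : 0 < L := by linarith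
  have hHE : H = E * L := by
    rw [hH, hE, hL, Real.rpow_add (by rw [← hL]; exact hL0), Real.rpow_one]
  have hK0 : 0 ≤ K := by
    rw [hK]; exact Real.rpow_nonneg (Real.log_nonneg (by linarith)) _
  obtain ⟨u, hu⟩ : ∃ u, u = ⌊x⌋₊ := ⟨_, rfl⟩
  obtain ⟨v, hv⟩ : ∃ v, v = ⌊x + H⌋₊ := ⟨_, rfl⟩
  have hux : (u : ℝ) ≤ x := by rw [hu]; exact Nat.floor_le hx0.le
  have hxu : x < u + 1 := by rw [hu]; exact Nat.lt_floor_add_one x
  have hvx : (v : ℝ) ≤ x + H := by rw [hv]; exact Nat.floor_le (by linarith)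
  have hxv : x + H < v + 1 := by rw [hv]; exact Nat.lt_floor_add_one _
  obtain ⟨Y, hY⟩ : ∃ Y, Y = 2 * c / g * (K + 2) + 1 := ⟨_, rfl⟩
  have hY0 : 0 < Y := by rw [hY]; positivity
  have hlog2 : Real.log 2 ≤ 1 := by
    have := Real.log_two_lt_d9; linarith
  have hwin : ∀ n : ℕ, u < n → n ≤ v → ∃ w : ℝ, 0 < w ∧ w < Y ∧
      nc A (n - 1) (n + ⌊w⌋₊) * L ≤ μ * w := by
    intro n hn1 hn2
    have hnx : x < n := by
      have : (u : ℝ) + 1 ≤ n := by exact_mod_cast hn1
      linarith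
    have hnv : (n : ℝ) ≤ v := by exact_mod_cast hn2
    have hn0 : (0 : ℝ) < n := by linarith
    have hsp := hcon n hnx (by linarith)
    obtain ⟨w, hw0, hw1, hw2⟩ := hsp
    rw [count_closed A (by omega) hw0.le] at hw2
    have hln : L ≤ Real.log n := by rw [hL]; exact Real.log_le_log hx0 hnx.le
    have hln0 : 0 < Real.log n := by linarith
    rw [lt_div_iff₀ hln0] at hw2
    refine ⟨w, hw0, ?_, (mul_le_mul_of_nonneg_left hln (Nat.cast_nonneg _)).trans hw2.le⟩
    by_contra h3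
    push Not at h3
    obtain ⟨j, hj⟩ : ∃ j, j = ⌊w⌋₊ := ⟨_, rfl⟩
    have hjw : (j : ℝ) ≤ w := by rw [hj]; exact Nat.floor_le hw0.le
    have hwj : w < j + 1 := by rw [hj]; exact Nat.lt_floor_add_one w
    rw [← hj] at hw2
    have h4 := loCover hc0.le ha hX (2 * n) j n (max_le (by linarith) (by linarith)) (by
      have : (j : ℝ) ≤ n := by linarith
      have : j ≤ n := by exact_mod_cast this
      omega)
    push_cast at h4
    have hWK : Real.log (2 * (n : ℝ)) ^ a ≤ K := s5 _ (by linarith) (by linarith)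
    have hlog : Real.log (2 * (n : ℝ)) ≤ Real.log n + 1 := by
      rw [Real.log_mul (by norm_num) hn0.ne']; linarith
    obtain ⟨N, hN⟩ : ∃ N : ℝ, N = nc A (n - 1) (n + j) := ⟨_, rfl⟩
    have hN0 : 0 ≤ N := by rw [hN]; positivity
    rw [← hN] at hw2
    have h5 : (nc A n (n + j) : ℝ) ≤ N := by rw [hN]; exact_mod_cast nc_mono (by omega) le_rfl
    have h6 : (nc A n (n + j) : ℝ) * Real.log (2 * (n : ℝ)) ≤ N * (Real.log n + 1) :=
      mul_le_mul h5 hlog (Real.log_nonneg (by linarith)) hN0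
    have h7 : c * (w - K - 2) ≤ c * ((j : ℝ) - Real.log (2 * (n : ℝ)) ^ a - 1) :=
      mul_le_mul_of_nonneg_left (by linarith) hc0.le
    -- `N ≤ μ w / log n ≤ (g / 2) w`
    have h8 : N ≤ g / 2 * w := by
      have h9 : 2 * μ / g ≤ Real.log n := by linarith
      have h10 : N * (2 * μ / g) ≤ μ * w := (mul_le_mul_of_nonneg_left h9 hN0).trans hw2.le
      have h11 : N * (2 * μ / g) = 2 * μ * N / g := by ring
      rw [h11, div_le_iff₀ hg0] at h10
      have h12 : μ * (2 * N) ≤ μ * (w * g) := by linarith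
      have h13 := le_of_mul_le_mul_left h12 hμ
      linarith
    have h9 : g / 2 * w ≤ c * (K + 2) := by
      have : c * w = μ * w + g * w := by rw [hg]; ring
      linarith
    have h10 : w ≤ 2 * c / g * (K + 2) := by
      have h11 : 2 * c / g * (K + 2) = c * (K + 2) / (g / 2) := by field_simp
      rw [h11, le_div_iff₀ (by positivity)]
      linarith
    linarith
  have huv : u < v := by
    have h3 : (u : ℝ) < v := by
      have h2 : 1 * L ≤ E * L := mul_le_mul_of_nonneg_right s4 hL0.le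
      linarith
    exact_mod_cast h3
  obtain ⟨m, hm1, hm2, hm3⟩ := greedy hμ.le hwin (v - (u + 1)) (u + 1) rfl (by omega) huv
  rw [Nat.add_sub_cancel] at hm3
  have h3 := hX' x hxX
  rw [← hH, ← hL, count_eq A hx0.le (by linarith), ← hu, ← hv] at h3
  have h6 : (nc A u v : ℝ) ≤ nc A u (m - 1) := by exact_mod_cast nc_mono le_rfl (by omega)
  have h7 : (nc A u v : ℝ) * L ≤ nc A u (m - 1) * L := mul_le_mul_of_nonneg_right h6 hL0.le
  have h8 : μ * ((m : ℝ) - ((u + 1 : ℕ) : ℝ)) ≤ μ * (H + Y + 2) := by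
    apply mul_le_mul_of_nonneg_left _ hμ.le
    push_cast
    linarith
  have h9 : g * H ≤ μ * (Y + 2) := by
    have : c * H = μ * H + g * H := by rw [hg]; ring
    linarith
  have h10 : H ≤ μ / g * (Y + 2) := by
    have h11 : μ / g * (Y + 2) = μ * (Y + 2) / g := by ring
    rw [h11, le_div_iff₀ hg0]
    linarith
  have h11 : Y + 2 ≤ (2 * c / g * (2 ^ a + 2) + 3) * E := by
    have h12 : 2 * c / g * (K + 2) ≤ 2 * c / g * ((2 ^ a + 2) * E) := by
      apply mul_le_mul_of_nonneg_left _ (by positivity)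
      linarith
    rw [hY]
    linarith
  have h12 : μ / g * (Y + 2) ≤ μ / g * ((2 * c / g * (2 ^ a + 2) + 3) * E) :=
    mul_le_mul_of_nonneg_left h11 (by positivity)
  have h13 : (μ / g * (2 * c / g * (2 ^ a + 2) + 5) + 1) * E ≤ E * L := by
    have : μ / g * (2 * c / g * (2 ^ a + 2) + 5) + 1 ≤ L := by linarith
    have := mul_le_mul_of_nonneg_right this (by linarith : 0 ≤ E)
    linarith
  have h14 : 0 ≤ μ / g * E := by positivity
  rw [hHE] at h10
  linarith

end Pool.Agent.H669.PL
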