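import Pool.Agent.H669.PL.C

set_option autoImplicit false

/-! # The equivalences -/

open Filter Topology

namespace Pool.Agent.H669.PL

open Pool.Agent.H669.PS

theorem lo_iff {A : Set ℕ} {c : ℝ} :
    LoGe A c ↔ ∀ μ : ℝ, μ < c → ∃ b : ℝ, 0 < b ∧ Hits A μ b := by
  constructor
  · intro h μ hμ
    by_cases hμ0 : μ ≤ 0
    · -- no window is sparse
      refine ⟨1, one_pos, 3, fun x hx => ⟨⌊x⌋₊ + 1, ?_, ?_, ?_⟩⟩
      · push_cast; exact Nat.lt_floor_add_one x
      · push_cast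
        have h1 := Nat.floor_le (by linarith : 0 ≤ x)
        have h2 : 1 ≤ Real.log x := by
          rw [Real.le_log_iff_exp_le (by linarith)]
          have := Real.exp_one_lt_d9
          linarith
        rw [Real.rpow_one]
        linarith
      · rintro ⟨w, hw0, hw1, hw2⟩
        have h3 : μ * w / Real.log ((⌊x⌋₊ + 1 : ℕ) : ℝ) ≤ 0 := by
          apply div_nonpos_of_nonpos_of_nonneg
          · exact mul_nonpos_of_nonpos_of_nonneg hμ0 hw0.le
          · apply Real.log_nonneg; push_cast; linarith [(Nat.cast_nonneg ⌊x⌋₊ : (0 : ℝ) ≤ ⌊x⌋₊)]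
        have h4 := count_nonneg A (((⌊x⌋₊ + 1 : ℕ) : ℝ) - 1) (w + 1)
        linarith
    · push Not at hμ0
      obtain ⟨δ, hδ⟩ : ∃ δ, δ = (c - μ) / 2 := ⟨_, rfl⟩
      have hδ0 : 0 < δ := by rw [hδ]; linarith
      obtain ⟨a₀, h1⟩ := h δ hδ0
      obtain ⟨a, ha⟩ : ∃ a, a = max a₀ 1 := ⟨_, rfl⟩
      have ha1 : a₀ ≤ a := by rw [ha]; exact le_max_left _ _
      have ha0 : 0 < a := by rw [ha]; exact lt_of_lt_of_le one_pos (le_max_right _ _)
      obtain ⟨X, hX⟩ := h1 a ha1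
      obtain ⟨X', hX'⟩ := h1 (a + 1) (by linarith)
      have conv : ∀ (b Z : ℝ), (∀ x, Z ≤ x → c - δ ≤ rate A b x) → ∀ y, max Z 3 ≤ y →
          (c - δ) * Real.log y ^ b ≤ count A y (Real.log y ^ b) * Real.log y := by
        intro b Z hZ y hy
        have hy3 : 3 ≤ y := (le_max_right _ _).trans hy
        have hl : 0 < Real.log y := Real.log_pos (by linarith)
        have h2 := hZ y ((le_max_left _ _).trans hy)
        unfold rate at h2
        rwa [le_div_iff₀ (Real.rpow_pos_of_pos hl _)] at h2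
      refine ⟨a + 1, by linarith, hits_of_lo (c := c - δ) (X := max (max X 3) (max X' 3)) hμ0
        (by linarith) ha0 ?_ ?_⟩
      · intro y hy
        exact conv a X hX y ((le_max_left _ _).trans hy)
      · intro y hy
        exact conv (a + 1) X' hX' y ((le_max_right _ _).trans hy)
  · intro h δ hδ
    by_cases hcδ : c - δ ≤ 0
    · refine ⟨0, fun a _ => ⟨3, fun x hx => hcδ.trans ?_⟩⟩
      unfold rate
      have hl : 0 < Real.log x := Real.log_pos (by linarith)
      have := count_nonneg A x (Real.log x ^ a)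
      positivity
    push Not at hcδ
    obtain ⟨μ, hμ⟩ : ∃ μ, μ = c - δ / 2 := ⟨_, rfl⟩
    have hμ0 : 0 < μ := by rw [hμ]; linarith
    obtain ⟨b, hb, X, hX⟩ := h μ (by rw [hμ]; linarith)
    refine ⟨b + 1, fun a ha => ?_⟩
    obtain ⟨X2, hX2⟩ := eventually_atTop.mp ((scale a (by linarith)
      (4 * μ / δ + 3)).and (eventually_ge_atTop (max X 16)))
    refine ⟨X2, fun x hx => ?_⟩
    obtain ⟨⟨s1, s2, s3, s4, s5⟩, s6⟩ := hX2 x hx
    have hxX : X ≤ x := (le_max_left _ _).trans s6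
    have hx16 : 16 ≤ x := (le_max_right _ _).trans s6
    have hx0 : 0 < x := by linarith
    have hHx := (s5 x (by linarith) (by linarith)).trans s2
    obtain ⟨y, hy1, hy2, hy3⟩ := hX x hxX
    unfold rate
    obtain ⟨L, hL⟩ : ∃ L, L = Real.log x := ⟨_, rfl⟩
    rw [← hL] at s3 s4 hy2 hHx ⊢
    have hq : 0 ≤ 4 * μ / δ := by positivity
    have hL0 : 0 < L := by linarith
    obtain ⟨H, hH⟩ : ∃ H, H = L ^ a := ⟨_, rfl⟩
    rw [← hH] at s4 hHx ⊢
    have hH0 : 0 < H := by linarith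
    obtain ⟨E, hE⟩ : ∃ E, E = L ^ b := ⟨_, rfl⟩
    rw [← hE] at hy2
    have hE0 : 0 < E := by rw [hE]; positivity
    have hbH : E * L ≤ H := by
      rw [hH, hE]
      calc L ^ b * L = L ^ (b + 1) := by rw [Real.rpow_add hL0, Real.rpow_one]
        _ ≤ L ^ a := Real.rpow_le_rpow_of_exponent_le (by linarith) ha
    have hEH : E < H := by nlinarith
    have hy16 : (16 : ℝ) < y := by linarith
    have hyn : 1 ≤ y := by
      have : (1 : ℝ) ≤ y := by linarith
      exact_mod_cast this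
    have hyx : (y : ℝ) ≤ 2 * x := by linarith
    have hly : Real.log y ≤ L + 1 := by
      have : Real.log y ≤ Real.log (2 * x) := Real.log_le_log (by linarith) hyx
      rw [Real.log_mul (by norm_num) hx0.ne', ← hL] at this
      have h2 := Real.log_two_lt_d9
      linarith
    have hly0 : 0 < Real.log y := Real.log_pos (by linarith)
    have h5 : μ * (x + H - y) ≤ count A x H * Real.log y := by
      by_contra h6
      push Not at h6
      apply hy3
      refine ⟨x + H - y, by linarith, by linarith, ?_⟩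
      rw [count_closed A hyn (by linarith), lt_div_iff₀ hly0]
      refine lt_of_le_of_lt ?_ h6
      apply mul_le_mul_of_nonneg_right _ hly0.le
      rw [count_eq A hx0.le hH0.le]
      have e1 : y + ⌊x + H - y⌋₊ = ⌊x + H⌋₊ := by
        rw [Nat.floor_sub_natCast]
        have : y ≤ ⌊x + H⌋₊ := Nat.le_floor (by linarith)
        omega
      have e2 : ⌊x⌋₊ ≤ y - 1 := by
        have : ⌊x⌋₊ < y := (Nat.floor_lt hx0.le).mpr hy1
        omega
      rw [e1]
      exact_mod_cast nc_mono e2 le_rfl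
    obtain ⟨N, hN⟩ : ∃ N, N = count A x H := ⟨_, rfl⟩
    have hN0 : 0 ≤ N := by rw [hN]; exact count_nonneg _ _ _
    rw [← hN] at h5 ⊢
    rw [le_div_iff₀ hH0]
    have h6 : μ * (H - E) ≤ N * (L + 1) := by
      have h7 := mul_le_mul_of_nonneg_left hly hN0
      have h8 : μ * (H - E) ≤ μ * (x + H - y) := mul_le_mul_of_nonneg_left (by linarith) hμ0.le
      linarith
    -- multiply by `L`
    have h7 : μ * (H * (L - 1)) ≤ N * L * (L + 1) := by
      have h8 := mul_le_mul_of_nonneg_right h6 hL0.le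
      have h9 : μ * (E * L) ≤ μ * H := mul_le_mul_of_nonneg_left hbH hμ0.le
      linarith
    have h8 : (c - δ) * (L + 1) ≤ μ * (L - 1) := by
      have h9 : 4 * μ / δ ≤ L + 1 := by linarith
      rw [div_le_iff₀ hδ] at h9
      have : (c - δ) * (L + 1) = μ * (L + 1) - δ / 2 * (L + 1) := by rw [hμ]; ring
      rw [this]
      linarith
    have h9 : (c - δ) * H * (L + 1) ≤ N * L * (L + 1) := by
      have := mul_le_mul_of_nonneg_right h8 hH0.le
      linarith
    exact le_of_mul_le_mul_right h9 (by linarith)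

/-- the proportion of the starting points of dense windows in `(x, x + (log x) ^ a]` -/
noncomputable def prop (A : Set ℕ) (μ a x : ℝ) : ℝ :=
  count (dense A μ) x (Real.log x ^ a) / Real.log x ^ a

/-- under `Gaps` the rate is `μ` times the proportion -/
lemma gaps_rate {A : Set ℕ} {μ b : ℝ} (hμ : 0 < μ) (hb : 0 < b) (h : Gaps A μ b) {δ a : ℝ}
    (hδ : 0 < δ) (ha : b + 1 ≤ a) :
    ∃ X : ℝ, ∀ x : ℝ, X ≤ x → |μ * prop A μ a x - rate A a x| ≤ δ := by
  obtain ⟨C, X, hC, hX⟩ := gaps_bal hμ hb h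
  obtain ⟨X2, hX2⟩ := eventually_atTop.mp ((scale a (by linarith)
    (2 * C / δ + 2)).and (eventually_ge_atTop (max X 3)))
  refine ⟨X2, fun x hx => ?_⟩
  obtain ⟨⟨s1, s2, s3, s4, s5⟩, s6⟩ := hX2 x hx
  have hx3 : 3 ≤ x := (le_max_right _ _).trans s6
  have h2 := (hX x (Real.log x ^ a) ((le_max_left _ _).trans s6) s4
    ((s5 x (by linarith) (by linarith)).trans (s2.trans (by linarith)))).1
  unfold rate prop
  obtain ⟨L, hL⟩ : ∃ L, L = Real.log x := ⟨_, rfl⟩
  rw [← hL] at s3 s4 h2 ⊢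
  have hq : 0 ≤ 2 * C / δ := by positivity
  have hL0 : 0 < L := by linarith
  obtain ⟨H, hH⟩ : ∃ H, H = L ^ a := ⟨_, rfl⟩
  rw [← hH] at s4 h2 ⊢
  have hH0 : 0 < H := by linarith
  have hbH : L ^ b * L ≤ H := by
    rw [hH]
    calc L ^ b * L = L ^ (b + 1) := by rw [Real.rpow_add hL0, Real.rpow_one]
      _ ≤ L ^ a := Real.rpow_le_rpow_of_exponent_le (by linarith) ha
  have h3 : L ^ b ≤ H / L := by rw [le_div_iff₀ hL0]; exact hbH
  have h4 : μ * (count (dense A μ) x H / H) - count A x H * L / H =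
      (μ * count (dense A μ) x H - count A x H * L) / H := by ring
  rw [h4, abs_div, abs_of_pos hH0, div_le_iff₀ hH0]
  refine h2.trans ?_
  calc C * (L ^ b + H / L) ≤ C * (H / L + H / L) := by gcongr
    _ = 2 * C / L * H := by ring
    _ ≤ δ * H := by
      apply mul_le_mul_of_nonneg_right _ hH0.le
      rw [div_le_iff₀ hL0]
      have : 2 * C / δ ≤ L := by linarith
      rw [div_le_iff₀ hδ] at this
      linarith

/-- `lim U_a = lim L_a = c` -/
def Limit (A : Set ℕ) (c : ℝ) : Prop :=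
  ∀ δ : ℝ, 0 < δ → ∃ a₀ : ℝ, ∀ a : ℝ, a₀ ≤ a → ∃ X : ℝ, ∀ x : ℝ, X ≤ x → |rate A a x - c| ≤ δ

/-- the same for the proportions of the dense integers -/
def Law (A : Set ℕ) (c μ : ℝ) : Prop :=
  ∀ δ : ℝ, 0 < δ → ∃ a₀ : ℝ, ∀ a : ℝ, a₀ ≤ a → ∃ X : ℝ, ∀ x : ℝ, X ≤ x →
    |prop A μ a x - c / μ| ≤ δ

lemma limit_iff {A : Set ℕ} {c : ℝ} : Limit A c ↔ UpLe A c ∧ LoGe A c := by
  constructor
  · intro h
    refine ⟨fun δ hδ => ?_, fun δ hδ => ?_⟩
    all_goals
      obtain ⟨a₀, h1⟩ := h δ hδ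
      refine ⟨a₀, fun a ha => ?_⟩
      obtain ⟨X, hX⟩ := h1 a ha
      refine ⟨X, fun x hx => ?_⟩
      have := abs_le.mp (hX x hx)
    · linarith [this.2]
    · linarith [this.1]
  · rintro ⟨h1, h2⟩ δ hδ
    obtain ⟨a₁, h3⟩ := h1 δ hδ
    obtain ⟨a₂, h4⟩ := h2 δ hδ
    refine ⟨max a₁ a₂, fun a ha => ?_⟩
    obtain ⟨X1, h5⟩ := h3 a ((le_max_left _ _).trans ha)
    obtain ⟨X2, h6⟩ := h4 a ((le_max_right _ _).trans ha)
    refine ⟨max X1 X2, fun x hx => ?_⟩
    have h7 := h5 x ((le_max_left _ _).trans hx)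
    have h8 := h6 x ((le_max_right _ _).trans hx)
    rw [abs_le]
    constructor <;> linarith

/-- the law gives good integers -/
lemma gaps_of_law {A : Set ℕ} {c μ : ℝ} (hc : 0 ≤ c) (hμ : c < μ) (h : Law A c μ) :
    ∃ b : ℝ, 0 < b ∧ Gaps A μ b := by
  classical
  have hμ0 : 0 < μ := by linarith
  have hμ1 : c / μ < 1 := by rw [div_lt_one hμ0]; exact hμ
  have hμ2 : 0 ≤ c / μ := by positivity
  obtain ⟨a₀, h1⟩ := h ((1 - c / μ) / 2) (by linarith)
  obtain ⟨a, ha⟩ : ∃ a, a = max a₀ 1 := ⟨_, rfl⟩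
  have ha1 : 1 ≤ a := by rw [ha]; exact le_max_right _ _
  obtain ⟨X, hX⟩ := h1 a (by rw [ha]; exact le_max_left _ _)
  obtain ⟨X2, hX2⟩ := eventually_atTop.mp ((scale a (by linarith)
    (2 / (1 - c / μ) + 2)).and (eventually_ge_atTop (max X 3)))
  refine ⟨a, by linarith, X2, fun x hx => ?_⟩
  obtain ⟨⟨s1, s2, s3, s4, s5⟩, s6⟩ := hX2 x hx
  have hx3 : 3 ≤ x := (le_max_right _ _).trans s6
  have hx0 : 0 ≤ x := by linarith
  by_contra hcon
  push Not at hcon
  have h2 := (abs_le.mp (hX x ((le_max_left _ _).trans s6))).2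
  unfold prop at h2
  obtain ⟨L, hL⟩ : ∃ L, L = Real.log x := ⟨_, rfl⟩
  rw [← hL] at s3 s4 h2 hcon
  have hq : 0 < 2 / (1 - c / μ) := div_pos two_pos (by linarith)
  have hL0 : 0 < L := by linarith
  obtain ⟨H, hH⟩ : ∃ H, H = L ^ a := ⟨_, rfl⟩
  rw [← hH] at s4 h2 hcon
  have hH0 : 0 < H := by linarith
  have hLH : L ≤ H := by
    rw [hH]
    calc L = L ^ (1 : ℝ) := (Real.rpow_one _).symm
      _ ≤ L ^ a := Real.rpow_le_rpow_of_exponent_le (by linarith) ha1
  rw [count_eq _ hx0 hH0.le] at h2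
  have h3 : nc (dense A μ) ⌊x⌋₊ ⌊x + H⌋₊ = ⌊x + H⌋₊ - ⌊x⌋₊ := by
    unfold nc
    rw [Finset.filter_true_of_mem, Nat.card_Ioc]
    intro n hn
    rw [Finset.mem_Ioc] at hn
    exact hcon n ((Nat.floor_lt hx0).mp hn.1) ((Nat.le_floor_iff (by linarith)).mp hn.2)
  have h4 : H - 1 ≤ (nc (dense A μ) ⌊x⌋₊ ⌊x + H⌋₊ : ℝ) := by
    rw [h3, Nat.cast_sub (Nat.floor_le_floor (by linarith))]
    have h4 := Nat.floor_le hx0
    have h5 := Nat.lt_floor_add_one (x + H)
    linarith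
  have h5 : (nc (dense A μ) ⌊x⌋₊ ⌊x + H⌋₊ : ℝ) / H ≤ (1 + c / μ) / 2 := by linarith
  rw [div_le_iff₀ hH0] at h5
  have h6 : 2 / (1 - c / μ) < H := by linarith
  rw [div_lt_iff₀ (by linarith)] at h6
  linarith

theorem limit_iff_law {A : Set ℕ} {c μ : ℝ} (hc : 0 ≤ c) (hμ : c < μ) :
    Limit A c ↔ Law A c μ := by
  have hμ0 : 0 < μ := by linarith
  constructor
  · intro h δ hδ
    obtain ⟨b, hb, h1⟩ := (up_iff hc).mp (limit_iff.mp h).1 μ hμ
    obtain ⟨a₀, h2⟩ := h (μ * δ / 2) (by positivity)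
    refine ⟨max a₀ (b + 1), fun a ha => ?_⟩
    obtain ⟨X1, hX1⟩ := gaps_rate hμ0 hb h1 (δ := μ * δ / 2) (by positivity)
      ((le_max_right _ _).trans ha)
    obtain ⟨X2, hX2⟩ := h2 a ((le_max_left _ _).trans ha)
    refine ⟨max X1 X2, fun x hx => ?_⟩
    have h3 := hX1 x ((le_max_left _ _).trans hx)
    have h4 := hX2 x ((le_max_right _ _).trans hx)
    have h5 : |μ * prop A μ a x - c| ≤ μ * δ := by
      have : μ * prop A μ a x - c = (μ * prop A μ a x - rate A a x) + (rate A a x - c) := by ring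
      rw [this]
      refine (abs_add_le _ _).trans ?_
      linarith
    have h6 : prop A μ a x - c / μ = (μ * prop A μ a x - c) / μ := by field_simp
    rw [h6, abs_div, abs_of_pos hμ0, div_le_iff₀ hμ0]
    linarith
  · intro h δ hδ
    obtain ⟨b, hb, h1⟩ := gaps_of_law hc hμ h
    obtain ⟨a₀, h2⟩ := h (δ / (2 * μ)) (by positivity)
    refine ⟨max a₀ (b + 1), fun a ha => ?_⟩
    obtain ⟨X1, hX1⟩ := gaps_rate hμ0 hb h1 (δ := δ / 2) (by positivity)
      ((le_max_right _ _).trans ha)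
    obtain ⟨X2, hX2⟩ := h2 a ((le_max_left _ _).trans ha)
    refine ⟨max X1 X2, fun x hx => ?_⟩
    have h3 := hX1 x ((le_max_left _ _).trans hx)
    have h4 := hX2 x ((le_max_right _ _).trans hx)
    have h5 : |μ * prop A μ a x - c| ≤ δ / 2 := by
      have h6 : μ * prop A μ a x - c = μ * (prop A μ a x - c / μ) := by field_simp
      rw [h6, abs_mul, abs_of_pos hμ0]
      have h7 := mul_le_mul_of_nonneg_left h4 hμ0.le
      have h8 : μ * (δ / (2 * μ)) = δ / 2 := by field_simp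
      linarith
    have : rate A a x - c = (μ * prop A μ a x - c) - (μ * prop A μ a x - rate A a x) := by ring
    rw [this]
    refine (abs_sub _ _).trans ?_
    linarith

end Pool.Agent.H669.PL
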